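import Pool.Agent.W345.GK.Inf

/-! GK-I4 (helper168, for helper345): the finite exponentials -/

set_option autoImplicit false

open Polynomial Finset

namespace Pool.Agent.W168.GK

open Pool.Agent.W345.GK

section
variable {k E : Type} [Field k] [Fintype k] [Field E]

theorem prod_ne_poly [DecidableEq k] :
    ∏ u ∈ (univ : Finset k).erase 0, (X - C u : k[X]) = X ^ (Fintype.card k - 1) - 1 := by
  have hq : 1 < Fintype.card k := Fintype.one_lt_card
  have h1 : (∏ u : k, (X - C u : k[X])) = X ^ Fintype.card k - X := by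
    have hm : (X ^ Fintype.card k - X : k[X]).Monic := by
      apply monic_X_pow_sub
      rw [degree_X]
      exact_mod_cast hq
    have hr := FiniteField.roots_X_pow_card_sub_X k
    have hd := FiniteField.X_pow_card_sub_X_natDegree_eq k hq
    have h2 := prod_multiset_X_sub_C_of_monic_of_roots_card_eq hm (by
      rw [hr, hd, ← Finset.card_def, Finset.card_univ])
    rw [hr] at h2
    exact h2
  have h3 : (X : k[X]) * ∏ u ∈ (univ : Finset k).erase 0, (X - C u : k[X]) =
      X * (X ^ (Fintype.card k - 1) - 1) := by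
    have h4 := Finset.mul_prod_erase (univ : Finset k) (fun u => (X - C u : k[X])) (mem_univ 0)
    simp only [C_0, sub_zero] at h4
    rw [h4, h1, mul_sub, mul_one, ← pow_succ', Nat.sub_add_cancel hq.le]
  exact mul_left_cancel₀ X_ne_zero h3

theorem prod_ne (φ : k[X] →+* E) [DecidableEq k] (A B : E) :
    ∏ u ∈ (univ : Finset k).erase 0, (A - φ (C u) * B) =
      A ^ (Fintype.card k - 1) - B ^ (Fintype.card k - 1) := by
  have hq : 1 < Fintype.card k := Fintype.one_lt_card
  have hc : ((univ : Finset k).erase 0).card = Fintype.card k - 1 := by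
    rw [Finset.card_erase_of_mem (mem_univ _), Finset.card_univ]
  by_cases hB : B = 0
  · subst hB
    simp only [mul_zero, sub_zero, prod_const, hc]
    rw [zero_pow (by omega), sub_zero]
  · have h1 := congrArg (eval₂ (φ.comp C) (A / B)) (prod_ne_poly (k := k))
    rw [eval₂_finsetProd] at h1
    simp only [eval₂_sub, eval₂_X, eval₂_C, eval₂_pow, eval₂_one, RingHom.comp_apply] at h1
    have h2 : ∏ u ∈ (univ : Finset k).erase 0, (A - φ (C u) * B) =
        ∏ u ∈ (univ : Finset k).erase 0, ((A / B - φ (C u)) * B) := by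
      apply Finset.prod_congr rfl
      intro u _
      field_simp
    rw [h2, Finset.prod_mul_distrib, h1, prod_const, hc, sub_mul, one_mul, ← mul_pow,
      div_mul_cancel₀ _ hB]

theorem prod_all (φ : k[X] →+* E) (A B : E) :
    ∏ u : k, (A - φ (C u) * B) =
      A ^ (Fintype.card k) - B ^ (Fintype.card k - 1) * A := by
  classical
  have hq : 1 < Fintype.card k := Fintype.one_lt_card
  rw [← Finset.mul_prod_erase univ _ (mem_univ (0 : k)), prod_ne]
  rw [C_0, map_zero, zero_mul, sub_zero]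
  have : A ^ (Fintype.card k) = A * A ^ (Fintype.card k - 1) := by
    rw [← pow_succ', Nat.sub_add_cancel hq.le]
  rw [this]
  ring

theorem pol_snoc {N : ℕ} (b : Fin N → k) (u : k) :
    pol (Fin.snoc b u : Fin (N + 1) → k) = pol b + C u * X ^ N := by
  unfold pol
  rw [Fin.sum_univ_castSucc]
  simp

theorem pol_cons {N : ℕ} (b : Fin N → k) (u : k) :
    pol (Fin.cons u b : Fin (N + 1) → k) = C u + X * pol b := by
  unfold pol
  rw [Fin.sum_univ_succ, Finset.mul_sum]
  simp only [Fin.cons_zero, Fin.cons_succ, Fin.val_zero, pow_zero, mul_one, Fin.val_succ, pow_succ]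
  congr 1
  apply Finset.sum_congr rfl
  intro i _
  ring

theorem pol_inj {N : ℕ} (b : Fin N → k) (h : pol b = 0) : b = 0 := by
  funext i
  have h1 := congrArg (fun p : k[X] => p.coeff (i : ℕ)) h
  simp only [pol, finsetSum_coeff, coeff_C_mul_X_pow, coeff_zero] at h1
  rw [Finset.sum_eq_single i] at h1
  · simpa using h1
  · intro j _ hj
    rw [if_neg]
    intro h2
    exact hj (Fin.ext h2.symm)
  · intro h2
    exact absurd (mem_univ _) h2

theorem pol_zero {N : ℕ} : pol (0 : Fin N → k) = 0 := by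
  simp [pol]

/-- product over all polynomials -/
noncomputable def ee (φ : k[X] →+* E) (N : ℕ) (z : E) : E := ∏ b : Fin N → k, (z - φ (pol b))

open Classical in
/-- product over all nonzero polynomials -/
noncomputable def cc (φ : k[X] →+* E) (N : ℕ) : E :=
  ∏ b ∈ univ.filter (fun b : Fin N → k => b ≠ 0), (-φ (pol b))

theorem ee_snoc (φ : k[X] →+* E) (N : ℕ) (z : E) :
    ee φ (N + 1) z = ∏ u : k, ee φ N (z - φ (C u) * φ X ^ N) := by
  unfold ee
  rw [← Fintype.prod_prod_type' (f := fun (u : k) (b : Fin N → k) => (z - φ (C u) * φ X ^ N) - φ (pol b))]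
  symm
  apply Fintype.prod_equiv (Fin.snocEquiv (fun _ => k))
  rintro ⟨u, b⟩
  have : (Fin.snocEquiv (fun _ => k)) (u, b) = (Fin.snoc b u : Fin (N + 1) → k) := rfl
  rw [this, pol_snoc, map_add, map_mul, map_pow]
  ring

theorem ee_cons (φ : k[X] →+* E) (hX : φ X ≠ 0) (N : ℕ) (z : E) :
    ee φ (N + 1) (φ X * z) = φ X ^ (Fintype.card k ^ (N + 1)) *
      ∏ u : k, ee φ N (z - φ (C u) * (φ X)⁻¹) := by
  have h1 : φ X ^ (Fintype.card k ^ (N + 1)) = ∏ _u : k, ∏ _b : Fin N → k, φ X := by
    rw [prod_const, prod_const, ← pow_mul, Finset.card_univ, Finset.card_univ, Fintype.card_pi,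
      prod_const, Finset.card_univ, Fintype.card_fin, pow_succ]
  unfold ee
  rw [h1, ← Finset.prod_mul_distrib]
  simp only [← Finset.prod_mul_distrib]
  rw [← Fintype.prod_prod_type' (f := fun (u : k) (b : Fin N → k) =>
    φ X * ((z - φ (C u) * (φ X)⁻¹) - φ (pol b)))]
  symm
  apply Fintype.prod_equiv (Fin.consEquiv (fun _ => k))
  rintro ⟨u, b⟩
  have : (Fin.consEquiv (fun _ => k)) (u, b) = (Fin.cons u b : Fin (N + 1) → k) := rfl
  rw [this, pol_cons, map_add, map_mul]
  field_simp
  ring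

theorem frob_add (φ : k[X] →+* E) (x y : E) :
    (x + y) ^ Fintype.card k = x ^ Fintype.card k + y ^ Fintype.card k := by
  obtain ⟨p, hp⟩ := CharP.exists k
  obtain ⟨n, hpr, hn⟩ := FiniteField.card k p
  haveI : Fact p.Prime := ⟨hpr⟩
  haveI : CharP E p := charP_of_injective_ringHom (f := φ.comp C) (RingHom.injective _) p
  rw [hn]
  exact add_pow_char_pow x y p n

theorem frob_C (φ : k[X] →+* E) (u : k) : φ (C u) ^ Fintype.card k = φ (C u) := by
  rw [← map_pow, ← C_pow, FiniteField.pow_card]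

theorem ee_lin (φ : k[X] →+* E) (N : ℕ) :
    (∀ z w : E, ee φ N (z + w) = ee φ N z + ee φ N w) ∧
    (∀ (u : k) (z : E), ee φ N (φ (C u) * z) = φ (C u) * ee φ N z) := by
  induction N with
  | zero =>
    have h0 : ∀ z : E, ee φ 0 z = z := by
      intro z
      unfold ee
      rw [Fintype.prod_subsingleton _ (0 : Fin 0 → k), pol_zero, map_zero, sub_zero]
    constructor
    · intro z w
      rw [h0, h0, h0]
    · intro u z
      rw [h0, h0]
  | succ N ih =>
    obtain ⟨iha, ihs⟩ := ih
    have hsub : ∀ z w : E, ee φ N (z - w) = ee φ N z - ee φ N w := by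
      intro z w
      have := iha (z - w) w
      rw [sub_add_cancel] at this
      rw [this]
      ring
    have hrec : ∀ z : E, ee φ (N + 1) z =
        (ee φ N z) ^ (Fintype.card k) - (ee φ N (φ X ^ N)) ^ (Fintype.card k - 1) * ee φ N z := by
      intro z
      rw [ee_snoc]
      simp only [hsub, ihs]
      exact prod_all φ _ _
    constructor
    · intro z w
      rw [hrec, hrec, hrec, iha, frob_add φ]
      ring
    · intro u z
      rw [hrec, hrec, ihs, mul_pow, frob_C]
      ring

theorem ee_sub (φ : k[X] →+* E) (N : ℕ) (z w : E) : ee φ N (z - w) = ee φ N z - ee φ N w := by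
  have := (ee_lin φ N).1 (z - w) w
  rw [sub_add_cancel] at this
  rw [this]
  ring

theorem ee_fun (φ : k[X] →+* E) (hX : φ X ≠ 0) (N : ℕ) (z : E) :
    ee φ (N + 1) (φ X * z) = φ X ^ (Fintype.card k ^ (N + 1)) *
      ((ee φ N z) ^ (Fintype.card k) - (ee φ N (φ X)⁻¹) ^ (Fintype.card k - 1) * ee φ N z) := by
  rw [ee_cons φ hX]
  simp only [ee_sub, (ee_lin φ N).2]
  rw [prod_all]

theorem cc_ne (φ : k[X] →+* E) (hφ : Function.Injective φ) (N : ℕ) : cc φ N ≠ 0 := by
  classical
  unfold cc
  rw [Finset.prod_ne_zero_iff]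
  intro b hb
  rw [Finset.mem_filter] at hb
  intro h
  apply hb.2
  apply pol_inj
  apply hφ
  rw [map_zero]
  exact neg_eq_zero.1 h

theorem eps_eq (φ : k[X] →+* E) (hφ : Function.Injective φ) (N : ℕ) (z : E) :
    eps φ N z = ee φ N z / cc φ N := by
  classical
  rw [eq_div_iff (cc_ne φ hφ N)]
  unfold eps ee cc
  rw [← Finset.mul_prod_erase univ (fun b : Fin N → k => z - φ (pol b)) (mem_univ 0), pol_zero,
    map_zero, sub_zero, mul_assoc]
  congr 1
  have he : (univ : Finset (Fin N → k)).erase 0 = univ.filter (fun b : Fin N → k => b ≠ 0) := by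
    ext b
    simp
  rw [he]
  rw [← Finset.prod_mul_distrib]
  apply Finset.prod_congr
  · congr!
  · intro b hb
    rw [Finset.mem_filter] at hb
    have h0 : φ (pol b) ≠ 0 := by
      intro h
      apply hb.2
      apply pol_inj
      apply hφ
      rw [map_zero]
      exact h
    field_simp
    ring

theorem cc_ite [DecidableEq k] (φ : k[X] →+* E) (N : ℕ) :
    cc φ N = ∏ b : Fin N → k, if b = 0 then 1 else -φ (pol b) := by
  unfold cc
  rw [Finset.prod_ite, Finset.prod_const_one, one_mul]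
  apply Finset.prod_congr
  · ext b
    simp
  · intro b _
    rfl

theorem cc_succ (φ : k[X] →+* E) (hX : φ X ≠ 0) (N : ℕ) :
    φ X * cc φ (N + 1) = -(φ X ^ (Fintype.card k ^ (N + 1)) * cc φ N *
      (ee φ N (φ X)⁻¹) ^ (Fintype.card k - 1)) := by
  classical
  have hq : 1 < Fintype.card k := Fintype.one_lt_card
  have hcard : (univ : Finset (Fin N → k)).card = Fintype.card k ^ N := by
    rw [Finset.card_univ, Fintype.card_pi, prod_const, Finset.card_univ, Fintype.card_fin]
  have h1 : cc φ (N + 1) = ∏ u : k, ∏ b : Fin N → k,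
      (if (Fin.cons u b : Fin (N + 1) → k) = 0 then 1 else -(φ (C u) + φ X * φ (pol b))) := by
    rw [cc_ite]
    rw [← Fintype.prod_prod_type' (f := fun (u : k) (b : Fin N → k) =>
      (if (Fin.cons u b : Fin (N + 1) → k) = 0 then (1 : E) else -(φ (C u) + φ X * φ (pol b))))]
    symm
    apply Fintype.prod_equiv (Fin.consEquiv (fun _ => k))
    rintro ⟨u, b⟩
    have : (Fin.consEquiv (fun _ => k)) (u, b) = (Fin.cons u b : Fin (N + 1) → k) := rfl
    rw [this, pol_cons, map_add, map_mul]
  rw [h1, ← Finset.mul_prod_erase univ _ (mem_univ (0 : k))]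
  have hcons : ∀ (u : k) (b : Fin N → k), (Fin.cons u b : Fin (N + 1) → k) = 0 ↔ u = 0 ∧ b = 0 := by
    intro u b
    constructor
    · intro h
      constructor
      · have := congrFun h 0
        simpa using this
      · funext i
        have := congrFun h i.succ
        simpa using this
    · rintro ⟨rfl, rfl⟩
      funext i
      refine Fin.cases ?_ (fun j => ?_) i <;> simp
  have h2 : φ X * ∏ b : Fin N → k, (if (Fin.cons (0 : k) b : Fin (N + 1) → k) = 0 then (1 : E)
      else -(φ (C 0) + φ X * φ (pol b))) = φ X ^ (Fintype.card k ^ N) * cc φ N := by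
    rw [cc_ite, ← Finset.mul_prod_erase univ _ (mem_univ (0 : Fin N → k)),
      ← Finset.mul_prod_erase univ (fun b : Fin N → k => if b = 0 then (1 : E) else -φ (pol b))
        (mem_univ (0 : Fin N → k))]
    rw [if_pos ((hcons 0 0).2 ⟨rfl, rfl⟩), if_pos rfl, one_mul, one_mul]
    have h3 : ∏ b ∈ (univ : Finset (Fin N → k)).erase 0,
        (if (Fin.cons (0 : k) b : Fin (N + 1) → k) = 0 then (1 : E)
          else -(φ (C 0) + φ X * φ (pol b))) =
        ∏ b ∈ (univ : Finset (Fin N → k)).erase 0, (φ X * (if b = 0 then (1 : E) else -φ (pol b))) := by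
      apply Finset.prod_congr rfl
      intro b hb
      have hb0 : b ≠ 0 := (Finset.mem_erase.1 hb).1
      rw [if_neg (fun h => hb0 ((hcons 0 b).1 h).2), if_neg hb0, C_0, map_zero]
      ring
    rw [h3, Finset.prod_mul_distrib, prod_const, Finset.card_erase_of_mem (mem_univ _), hcard,
      ← mul_assoc, ← pow_succ', Nat.sub_add_cancel (Nat.one_le_pow _ _ (by omega))]
  have hee0 : ee φ N 0 = 0 := by
    have := (ee_lin φ N).1 0 0
    rw [add_zero] at this
    exact left_eq_add.1 this
  have h4 : ∏ u ∈ (univ : Finset k).erase 0, ∏ b : Fin N → k,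
      (if (Fin.cons u b : Fin (N + 1) → k) = 0 then (1 : E) else -(φ (C u) + φ X * φ (pol b))) =
      ∏ u ∈ (univ : Finset k).erase 0, (φ X ^ (Fintype.card k ^ N) *
        (0 - φ (C u) * ee φ N (φ X)⁻¹)) := by
    apply Finset.prod_congr rfl
    intro u hu
    have hu0 : u ≠ 0 := (Finset.mem_erase.1 hu).1
    rw [← (ee_lin φ N).2]
    nth_rewrite 1 [← hee0]
    rw [← ee_sub]
    unfold ee
    have h5 : φ X ^ (Fintype.card k ^ N) = ∏ _b : Fin N → k, φ X := by
      rw [prod_const, hcard]
    rw [h5, ← Finset.prod_mul_distrib]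
    apply Finset.prod_congr rfl
    intro b _
    rw [if_neg (fun h => hu0 ((hcons u b).1 h).1)]
    field_simp
    ring
  have hce : ((univ : Finset k).erase 0).card = Fintype.card k - 1 := by
    rw [Finset.card_erase_of_mem (mem_univ _), Finset.card_univ]
  rw [h4, ← mul_assoc, h2, Finset.prod_mul_distrib, prod_ne, prod_const, hce, zero_pow (by omega),
    zero_sub, ← pow_mul]
  have h6 : φ X ^ (Fintype.card k ^ (N + 1)) =
      φ X ^ (Fintype.card k ^ N) * φ X ^ (Fintype.card k ^ N * (Fintype.card k - 1)) := by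
    rw [← pow_add]
    congr 1
    rw [pow_succ]
    calc Fintype.card k ^ N * Fintype.card k =
        Fintype.card k ^ N * (1 + (Fintype.card k - 1)) := by
          congr 1
          omega
      _ = _ := by ring
  rw [h6]
  ring

end

theorem i4 : S_I4 := by
  intro k E _ _ _ φ hφ N
  have hX : φ X ≠ 0 := by
    intro h
    exact X_ne_zero (hφ (h.trans (map_zero φ).symm))
  have hc := cc_ne φ hφ N
  have hc' := cc_ne φ hφ (N + 1)
  refine ⟨?_, ?_, ?_, ?_⟩
  · intro z w
    rw [eps_eq φ hφ, eps_eq φ hφ, eps_eq φ hφ, (ee_lin φ N).1]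
    ring
  · intro u z
    rw [eps_eq φ hφ, eps_eq φ hφ, (ee_lin φ N).2]
    ring
  · intro z
    rw [eps_eq φ hφ, div_eq_zero_iff]
    constructor
    · rintro (h | h)
      · unfold ee at h
        rw [Finset.prod_eq_zero_iff] at h
        obtain ⟨b, -, hb⟩ := h
        exact ⟨b, sub_eq_zero.1 hb⟩
      · exact absurd h hc
    · rintro ⟨b, rfl⟩
      left
      unfold ee
      exact Finset.prod_eq_zero (mem_univ b) (sub_self _)
  · intro z
    rw [eps_eq φ hφ, eps_eq φ hφ, eps_eq φ hφ, ee_fun φ hX]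
    have h1 := cc_succ φ hX N
    obtain ⟨A, hA⟩ : ∃ A : E, A = ee φ N z := ⟨_, rfl⟩
    obtain ⟨B, hB⟩ : ∃ B : E, B = ee φ N (φ X)⁻¹ := ⟨_, rfl⟩
    obtain ⟨x, hx⟩ : ∃ x : E, x = φ X := ⟨_, rfl⟩
    obtain ⟨c, hcd⟩ : ∃ c : E, c = cc φ N := ⟨_, rfl⟩
    obtain ⟨c', hcd'⟩ : ∃ c' : E, c' = cc φ (N + 1) := ⟨_, rfl⟩
    rw [← hA, ← hB, ← hx, ← hcd, ← hcd'] 
    rw [← hB, ← hx, ← hcd, ← hcd'] at h1
    rw [← hcd] at hc
    rw [← hcd'] at hc'
    rw [← hx] at hX
    have hq : 1 < Fintype.card k := Fintype.one_lt_card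
    obtain ⟨r, hr⟩ : ∃ r : ℕ, Fintype.card k = r + 1 := ⟨Fintype.card k - 1, by omega⟩
    obtain ⟨Q, hQ⟩ : ∃ Q : ℕ, Q = Fintype.card k ^ (N + 1) := ⟨_, rfl⟩
    rw [← hQ]
    rw [← hQ] at h1
    rw [hr] at h1 ⊢
    rw [Nat.add_sub_cancel] at h1 ⊢
    have hBr : B ^ r ≠ 0 := by
      intro h0
      rw [h0, mul_zero, neg_zero] at h1
      rcases mul_eq_zero.1 h1 with h | h
      · exact hX h
      · exact hc' h
    have hc'eq : c' = -(x ^ Q * c * B ^ r) / x := by
      rw [eq_div_iff hX, mul_comm]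
      exact h1
    have hxQ : x ^ Q ≠ 0 := pow_ne_zero _ hX
    rw [hc'eq, div_pow, div_pow]
    field_simp
    ring

end Pool.Agent.W168.GK
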